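import Pool.Agent.Helper3.UFinal

/-- For all `2 ≤ k < m`, with `s = min(k, m-k)`:
`1 - π(K_m^k) ≤ 300 s log (s+1) / C(m-1, k-1)`. -/
theorem Pool.Agent.Results.MP_a4d830_co.E_UniformUpper.result :
    ∀ k m : ℕ, 2 ≤ k → k < m →
      Filter.Tendsto
        (fun n : ℕ => (Pool.Agent.Helper1.Turan.exNum k m n : ℝ) / (n.choose k : ℝ))
        Filter.atTop (nhds (Pool.Agent.Helper1.Turan.turanDensity k m)) ∧
      1 - Pool.Agent.Helper1.Turan.turanDensity k m ≤
        300 * ((min k (m - k) : ℕ) : ℝ) * Real.log (((min k (m - k) : ℕ) : ℝ) + 1) /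
          ((m - 1).choose (k - 1) : ℝ) := by
  intro k m hk hkm
  refine ⟨Pool.Agent.Helper1.Turan.tendsto_turanDensity hkm.le, ?_⟩
  obtain ⟨R, rfl⟩ : ∃ R, m = k + R := ⟨m - k, by omega⟩
  have h := Pool.Agent.Helper3.Turan.tau_uniform (k := k) (R := R) hk (by omega)
  have hpos : (0:ℝ) < ((k + R - 1).choose (k - 1) : ℝ) := by
    exact_mod_cast Nat.choose_pos (by omega)
  rw [le_div_iff₀ hpos]
  have e : k + R - k = R := by omega
  rw [e]
  exact h
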