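import Pool.Agent.FDX.Fin

/-- The exact Turán number of Fon-der-Flaass 3-graphs for large `n`, the structure of the extremal orgraphs,
a sharp inequality for all `n`, and the density `5/9`. -/
theorem Pool.Agent.Results.MP_a4d830_co.G_FonDerFlaassExact.result :
    (∀ (n : ℕ) (A : Fin n → Fin n → Prop), FDF.Res.IsOrgraph A → FDF.Res.NoInducedC4 A →
      (∀ t : Finset (Fin n), t.card = 4 → ∃ s ⊆ t, s.card = 3 ∧ s ∉ FDF.Res.fdf A) ∧
      54 * (FDF.Res.fdf A).card + 27 * FDX.Res.arcs A ≤ 5 * n ^ 3) ∧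
    (∀ n : ℕ, 10 ^ 16 ≤ n →
      FDF.Res.exFDF n = FDX.Res.turan n ∧
      ∀ A : Fin n → Fin n → Prop, FDF.Res.IsOrgraph A → FDF.Res.NoInducedC4 A →
        (FDF.Res.fdf A).card = FDX.Res.turan n →
          ∃ f : Fin n → Fin 3, ∀ u v, (A u v ∨ A v u) ↔ f u ≠ f v) ∧
    Filter.Tendsto (fun n : ℕ => (FDF.Res.exFDF n : ℝ) / (n.choose 3 : ℝ)) Filter.atTop (nhds (5 / 9)) :=
  ⟨fun _ A h h4 => ⟨fun t ht => FDF.Res.free A h h4 t ht, FDX.Res.upper_arcs A h h4⟩,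
    fun _ hn => ⟨FDX.Res.exact hn, fun A h h4 hA => FDX.Res.extremal hn A h h4 hA⟩, FDF.Res.density⟩
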