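import Pool.Agent.DCX.Final2

/-- De Caen's bound `1 - π(K_m^k) ≥ 1 / C(m-1, k-1)` is never sharp for `k ≥ 3`, and it is off by an
unbounded factor: there are `c > 0` and `c' k > 0` (`k ≥ 3`) such that for all `m > k ≥ 3` and all `L`
with `tower L ≤ k` and `tower L * k ≤ m`
`1 - π(K_m^k) ≥ max (1 + c' k) (c L^(1/10)) / C(m-1, k-1)`;
moreover `ex(n, K_m^k) ≤ (1 - c L^(1/10) / C(m-1, k-1)) C(n, k)` for every `n ≥ 2 m`.
Here `tower 0 = 1`, `tower (L+1) = 2 ^ tower L`. -/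
theorem Pool.Agent.Results.MP_a4d830_co.H_UnboundedFactor.result :
    ∃ c : ℝ, 0 < c ∧ ∃ c' : ℕ → ℝ, (∀ k : ℕ, 3 ≤ k → 0 < c' k) ∧
      ∀ L k m : ℕ, 3 ≤ k → k < m →
        Pool.Agent.DCX.tower L ≤ k → Pool.Agent.DCX.tower L * k ≤ m →
        Filter.Tendsto
          (fun n : ℕ => (Pool.Agent.Helper1.Turan.exNum k m n : ℝ) / (n.choose k : ℝ))
          Filter.atTop (nhds (Pool.Agent.Helper1.Turan.turanDensity k m)) ∧
        max (1 + c' k) (c * (L : ℝ) ^ ((1 : ℝ) / 10)) / ((m - 1).choose (k - 1) : ℝ) ≤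
          1 - Pool.Agent.Helper1.Turan.turanDensity k m ∧
        ∀ n : ℕ, 2 * m ≤ n →
          (Pool.Agent.Helper1.Turan.exNum k m n : ℝ) ≤
            (1 - c * (L : ℝ) ^ ((1 : ℝ) / 10) / ((m - 1).choose (k - 1) : ℝ)) *
              (n.choose k : ℝ) :=
  Pool.Agent.DCX.final_max
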