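import Pool.Agent.DCP5.Main5

/-- De Caen's bound `1 - π(K_m^k) ≥ 1 / C(m-1, k-1)` is off by a constant factor, the same for all `k ≥ 3`, at every
ratio `m / k` bounded away from `1` and from the numbers `q / (q - 1)`, `q` a prime power (in particular for all
`m ≥ (2 + η) k`), and it is never sharp for `m ≥ (1 + ε) k`: for every `ε > 0` there is `c > 0` such that for all `k ≥ 3`
and all `m ≥ (1 + ε) k`
`1 - π(K_m^k) ≥ (1 + c max (1/k) D) / C(m-1, k-1)`,
`D` the distance of `m / (m - k)` from the set `{2, 3, 4, 5, 7, 8, 9, 11, ...}` of prime powers (the bound holds for every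
real `D` which is at most `|m / (m - k) - q|` for all prime powers `q`). -/
theorem Pool.Agent.Results.MP_a4d830_co.I_FixedRatios.result :
    ∀ ε : ℝ, 0 < ε → ∃ c : ℝ, 0 < c ∧ ∀ k m : ℕ, 3 ≤ k → (1 + ε) * (k : ℝ) ≤ (m : ℝ) →
      Filter.Tendsto
        (fun n : ℕ => (Pool.Agent.Helper1.Turan.exNum k m n : ℝ) / (n.choose k : ℝ))
        Filter.atTop (nhds (Pool.Agent.Helper1.Turan.turanDensity k m)) ∧
      ∀ D : ℝ, (∀ q : ℕ, IsPrimePow q → D ≤ |(m : ℝ) / ((m : ℝ) - (k : ℝ)) - (q : ℝ)|) →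
        (1 + c * max (1 / (k : ℝ)) D) / ((m - 1).choose (k - 1) : ℝ) ≤
          1 - Pool.Agent.Helper1.Turan.turanDensity k m :=
  Pool.Agent.DCP5.final_V5
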